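import Mathlib

set_option autoImplicit false

/-!
# No uniform bound for irreducible decompositions of numerical semigroups
-/

namespace Pool.Agent.Results.MP_b58a5b_nt.NoUniformBound

/-- Numerical semigroup: contains `0`, closed under addition, finite complement in `ℕ`. -/
def IsNS (S : Set ℕ) : Prop :=
  0 ∈ S ∧ (∀ x ∈ S, ∀ y ∈ S, x + y ∈ S) ∧ (Sᶜ).Finite

/-- Irreducible numerical semigroup: not the intersection of two numerical semigroups properly
containing it. -/
def IsIrred (S : Set ℕ) : Prop :=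
  IsNS S ∧ ¬ ∃ S₁ S₂ : Set ℕ, IsNS S₁ ∧ IsNS S₂ ∧ S ⊂ S₁ ∧ S ⊂ S₂ ∧ S = S₁ ∩ S₂

/-- A set of positive integers in which every difference divides the larger element. -/
def Good (H : Finset ℕ) : Prop :=
  (∀ h ∈ H, 0 < h) ∧ ∀ h ∈ H, ∀ h' ∈ H, h < h' → (h' - h) ∣ h'

theorem exists_good (n : ℕ) : ∃ H : Finset ℕ, H.card = n ∧ Good H := by
  induction n with
  | zero => exact ⟨∅, rfl, by simp [Good]⟩
  | succ n ih =>
    obtain ⟨H, hc, hpos, hdiv⟩ := ih
    set P : ℕ := ∏ h ∈ H, h with hP
    have hPpos : 0 < P := Finset.prod_pos hpos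
    have hdP : ∀ h ∈ H, h ∣ P := fun h hh => Finset.dvd_prod_of_mem _ hh
    refine ⟨insert P (H.image (fun h => P + h)), ?_, ?_, ?_⟩
    · rw [Finset.card_insert_of_notMem, Finset.card_image_of_injective _ (add_right_injective P),
        hc]
      intro hmem
      rw [Finset.mem_image] at hmem
      obtain ⟨h, hh, he⟩ := hmem
      have := hpos h hh
      omega
    · intro h hh
      rw [Finset.mem_insert, Finset.mem_image] at hh
      rcases hh with rfl | ⟨h', _, rfl⟩
      · exact hPpos
      · omega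
    · intro a ha b hb hab
      rw [Finset.mem_insert, Finset.mem_image] at ha hb
      rcases ha with rfl | ⟨h, hh, rfl⟩
      · rcases hb with rfl | ⟨h', hh', rfl⟩
        · exact absurd hab (lt_irrefl _)
        · have : P + h' - P = h' := by omega
          rw [this]
          exact dvd_add (hdP h' hh') dvd_rfl
      · rcases hb with rfl | ⟨h', hh', rfl⟩
        · omega
        · have e : P + h' - (P + h) = h' - h := by omega
          have hlt : h < h' := by omega
          rw [e]
          exact dvd_add ((hdiv h hh h' hh' hlt).trans (hdP h' hh')) (hdiv h hh h' hh' hlt)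

/-- In an irreducible numerical semigroup with largest gap `f`, every gap `x > f/2` satisfies
`f - x ∈ T`. -/
theorem symm_of_irred {T : Set ℕ} (hT : IsIrred T) {f : ℕ} (hf : f ∉ T)
    (hmax : ∀ y, f < y → y ∈ T) : ∀ x, x ∉ T → f < 2 * x → f - x ∈ T := by
  obtain ⟨⟨h0, hadd, hfin⟩, hirr⟩ := hT
  by_contra hcon
  push Not at hcon
  -- the bad set is bounded by f, take the largest element
  obtain ⟨x0, hx0⟩ := hcon
  have hbdd : ∀ x, (x ∉ T ∧ f < 2 * x ∧ f - x ∉ T) → x ≤ f := by
    rintro x ⟨hx, _, _⟩
    by_contra h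
    exact hx (hmax x (by omega))
  obtain ⟨x, ⟨hxT, hx2, hfx⟩, hxmax⟩ : ∃ x, (x ∉ T ∧ f < 2 * x ∧ f - x ∉ T) ∧
      ∀ y, (y ∉ T ∧ f < 2 * y ∧ f - y ∉ T) → y ≤ x := by
    classical
    let p : ℕ → Prop := fun x => x ∉ T ∧ f < 2 * x ∧ f - x ∉ T
    have hp : p x0 := hx0
    refine ⟨Nat.findGreatest p f, ?_, ?_⟩
    · exact Nat.findGreatest_spec (P := p) (hbdd x0 hx0) hp
    · intro y hy
      exact Nat.le_findGreatest (hbdd y hy) hy
  have hxf : x ≤ f := hbdd x ⟨hxT, hx2, hfx⟩
  have hxne : x ≠ f := by
    rintro rfl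
    apply hfx
    rw [Nat.sub_self]
    exact h0
  apply hirr
  refine ⟨T ∪ {x}, T ∪ {f}, ⟨Or.inl h0, ?_, ?_⟩, ⟨Or.inl h0, ?_, ?_⟩, ?_, ?_, ?_⟩
  · have key : ∀ s ∈ T, s + x ∈ T ∪ {x} := by
      intro s hs
      by_cases hs0 : s = 0
      · right; rw [hs0]; simp
      · left
        by_contra hnot
        have h1 := fun h => hxmax (s + x) ⟨hnot, by omega, h⟩
        have h2 : f - (s + x) ∈ T := by
          by_contra h3
          have := h1 h3
          omega
        have hle : s + x ≤ f := by
          by_contra h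
          exact hnot (hmax _ (by omega))
        have h3 : s + (f - (s + x)) ∈ T := hadd s hs _ h2
        have e : s + (f - (s + x)) = f - x := by omega
        rw [e] at h3
        exact hfx h3
    rintro a (ha | ha) b (hb | hb)
    · exact Or.inl (hadd a ha b hb)
    · rw [Set.mem_singleton_iff] at hb
      subst hb
      exact key a ha
    · rw [Set.mem_singleton_iff] at ha
      subst ha
      rw [add_comm]
      exact key b hb
    · rw [Set.mem_singleton_iff] at ha hb
      subst ha; subst hb
      exact Or.inl (hmax _ (by omega))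
  · exact hfin.subset (Set.compl_subset_compl.2 Set.subset_union_left)
  · rintro a (ha | ha) b (hb | hb)
    · exact Or.inl (hadd a ha b hb)
    · rw [Set.mem_singleton_iff] at hb
      subst hb
      by_cases h : a = 0
      · right; rw [h]; simp
      · exact Or.inl (hmax _ (by omega))
    · rw [Set.mem_singleton_iff] at ha
      subst ha
      by_cases h : b = 0
      · right; rw [h]; simp
      · exact Or.inl (hmax _ (by omega))
    · rw [Set.mem_singleton_iff] at ha hb
      subst ha; subst hb
      exact Or.inl (hmax _ (by omega))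
  · exact hfin.subset (Set.compl_subset_compl.2 Set.subset_union_left)
  · exact ⟨Set.subset_union_left, fun h => hxT (h (Or.inr rfl))⟩
  · exact ⟨Set.subset_union_left, fun h => hf (h (Or.inr rfl))⟩
  · ext y
    constructor
    · intro hy
      exact ⟨Or.inl hy, Or.inl hy⟩
    · rintro ⟨h1 | h1, h2 | h2⟩
      · exact h1
      · exact h1
      · exact h2
      · rw [Set.mem_singleton_iff] at h1 h2
        exact absurd (h1.symm.trans h2) hxne

/-- A multiple of an element of a numerical semigroup lies in it. -/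
theorem mul_mem {T : Set ℕ} (hT : IsNS T) {a : ℕ} (ha : a ∈ T) (k : ℕ) : k * a ∈ T := by
  induction k with
  | zero => rw [Nat.zero_mul]; exact hT.1
  | succ k ih => rw [Nat.succ_mul]; exact hT.2.1 _ ih _ ha

/-- Two gaps `h < h'` of an irreducible `T` in the upper range cannot satisfy
`(h' - h) ∣ h'` when everything above `K + B` lies in `T`, `K < h, h' ≤ K + B` and `K ≥ (B+1)^2`. -/
theorem no_pair {T : Set ℕ} (hT : IsIrred T) {K B h h' : ℕ} (hK : (B + 1) * (B + 1) ≤ K)
    (hbig : ∀ y, K + B < y → y ∈ T) (hh : K < h) (hlt : h < h') (hh' : h' ≤ K + B)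
    (hdvd : (h' - h) ∣ h') (hT1 : h ∉ T) (hT2 : h' ∉ T) : False := by
  classical
  -- the Frobenius number
  have hbdd : ∀ x, x ∉ T → x ≤ K + B := by
    intro x hx
    by_contra hc
    exact hx (hbig x (by omega))
  obtain ⟨f, hfT, hfmax⟩ : ∃ f, f ∉ T ∧ ∀ y, y ∉ T → y ≤ f := by
    refine ⟨Nat.findGreatest (fun x => x ∉ T) (K + B), ?_, ?_⟩
    · exact Nat.findGreatest_spec (P := fun x => x ∉ T) (hbdd h hT1) hT1
    · intro y hy
      exact Nat.le_findGreatest (hbdd y hy) hy
  have hmax : ∀ y, f < y → y ∈ T := by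
    intro y hy
    by_contra hc
    have := hfmax y hc
    omega
  have hfB : f ≤ K + B := hbdd f hfT
  have hf' : h' ≤ f := hfmax h' hT2
  have hKB : B < K := by nlinarith
  have ha : f - h' ∈ T := symm_of_irred hT hfT hmax h' hT2 (by omega)
  have hb : f - h ∈ T := symm_of_irred hT hfT hmax h hT1 (by omega)
  have hg : Nat.gcd (f - h') (f - h) ∣ f := by
    have h1 : Nat.gcd (f - h') (f - h) ∣ (f - h) - (f - h') :=
      Nat.dvd_sub (Nat.gcd_dvd_right _ _) (Nat.gcd_dvd_left _ _)
    have e : (f - h) - (f - h') = h' - h := by omega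
    rw [e] at h1
    have h2 := h1.trans hdvd
    have h3 := dvd_add h2 (Nat.gcd_dvd_left (f - h') (f - h))
    have e2 : h' + (f - h') = f := by omega
    rwa [e2] at h3
  have hle : (f - h').pred * (f - h).pred ≤ f := by
    have h1 : (f - h').pred ≤ B := by
      have := Nat.pred_le (f - h')
      omega
    have h2 : (f - h).pred ≤ B := by
      have := Nat.pred_le (f - h)
      omega
    have h3 := Nat.mul_le_mul h1 h2
    nlinarith
  obtain ⟨x, y, hxy⟩ := Nat.exists_add_mul_eq_of_gcd_dvd_of_mul_pred_le _ _ _ hg hle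
  apply hfT
  rw [← hxy]
  exact hT.1.2.1 _ (mul_mem hT.1 ha x) _ (mul_mem hT.1 hb y)

/-- **Main theorem.** For every `N` there is a numerical semigroup that is not an intersection of
at most `N` irreducible numerical semigroups. -/
theorem result : ∀ N : ℕ, ∃ S : Set ℕ, IsNS S ∧
    ∀ k : ℕ, k ≤ N → ∀ T : Fin k → Set ℕ, (∀ i, IsIrred (T i)) → S ≠ ⋂ i, T i := by
  intro N
  obtain ⟨H, hc, hpos, hdiv⟩ := exists_good (N + 1)
  set B : ℕ := H.sup id with hB
  have hleB : ∀ h ∈ H, h ≤ B := fun h hh => Finset.le_sup (f := id) hh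
  set P : ℕ := ∏ h ∈ H, h with hP
  have hPpos : 0 < P := Finset.prod_pos hpos
  have hdP : ∀ h ∈ H, h ∣ P := fun h hh => Finset.dvd_prod_of_mem _ hh
  set K : ℕ := P * ((B + 1) * (B + 1)) with hK
  have hKle : (B + 1) * (B + 1) ≤ K := Nat.le_mul_of_pos_left _ hPpos
  refine ⟨{x | x = 0 ∨ K + B < x}, ⟨Or.inl rfl, ?_, ?_⟩, ?_⟩
  · rintro x (hx | hx) y (hy | hy)
    · left; omega
    · right; omega
    · right; omega
    · right; omega
  · apply (Set.finite_Iic (K + B)).subset
    intro x hx
    rw [Set.mem_Iic]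
    by_contra hcon
    exact hx (Or.inr (by omega))
  · intro k hk T hT hS
    have hgap : ∀ h ∈ H, ∃ i, K + h ∉ T i := by
      intro h hh
      by_contra hcon
      push Not at hcon
      have hmem : K + h ∈ ⋂ i, T i := Set.mem_iInter.2 hcon
      rw [← hS] at hmem
      rcases hmem with h1 | h1
      · have := hpos h hh
        omega
      · have := hleB h hh
        omega
    have hsub : ∀ i, ∀ y, K + B < y → y ∈ T i := by
      intro i y hy
      have : y ∈ ⋂ i, T i := by
        rw [← hS]
        exact Or.inr hy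
      exact Set.mem_iInter.1 this i
    have hne : H.Nonempty := by
      rw [← Finset.card_pos, hc]; omega
    obtain ⟨h₀, hh₀⟩ := hne
    obtain ⟨i₀, _⟩ := hgap h₀ hh₀
    haveI : Nonempty (Fin k) := ⟨i₀⟩
    choose! g hg using hgap
    -- pigeonhole
    obtain ⟨h, hh, h', hh', hne, heq⟩ :=
      Finset.exists_ne_map_eq_of_card_lt_of_maps_to (s := H) (t := (Finset.univ : Finset (Fin k)))
        (f := g) (by rw [Finset.card_univ, Fintype.card_fin, hc]; omega)
        (fun _ _ => Finset.mem_univ _)
    have main : ∀ h ∈ H, ∀ h' ∈ H, h < h' → g h = g h' → False := by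
      intro h hh h' hh' hlt heq
      have hd : (K + h' - (K + h)) ∣ K + h' := by
        have e : K + h' - (K + h) = h' - h := by omega
        rw [e]
        have h1 := hdiv h hh h' hh' hlt
        exact dvd_add ((h1.trans (hdP h' hh')).trans (Dvd.intro _ rfl)) h1
      have hp := hpos h hh
      have hl := hleB h' hh'
      refine no_pair (hT (g h)) hKle (hsub (g h)) (h := K + h) (h' := K + h') ?_ ?_ ?_ hd
        (hg h hh) ?_
      · omega
      · omega
      · omega
      · rw [heq]; exact hg h' hh'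
    rcases lt_or_gt_of_ne hne with hlt | hlt
    · exact main h hh h' hh' hlt heq
    · exact main h' hh' h hh hlt heq.symm

end Pool.Agent.Results.MP_b58a5b_nt.NoUniformBound
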